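import Pool.Agent.W537.OneCycleDefs
import Mathlib.Algebra.MvPolynomial.Eval

/-!
# The Lefschetz isomorphism in one degree and families of cycles: definitions
-/

set_option autoImplicit false

universe u v

namespace Pool.Agent.J4.H18.U

section Alg

/-- The operator `L` of degree `j - i` maps `gr i` bijectively to `gr j`. -/
def BijectiveOn {K V : Type*} [Field K] [AddCommGroup V] [Module K V] (gr : ℕ → Submodule K V)
    (i j : ℕ) (L : V →ₗ[K] V) : Prop :=
  (∀ a ∈ gr i, L a = 0 → a = 0) ∧ ∀ b ∈ gr j, ∃ a ∈ gr i, L a = b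

/-- The linear combination `∑ j, c j • x j`. -/
def comb {M : Type*} [AddCommGroup M] [Module ℚ M] {N : ℕ} (c : Fin N → ℚ) (x : Fin N → M) : M :=
  ∑ j, c j • x j

/-- The value `p(t) / q(t)`. -/
noncomputable def ratAt {r : ℕ} (p q : MvPolynomial (Fin r) ℚ) (t : Fin r → ℚ) : ℚ :=
  MvPolynomial.eval t p / MvPolynomial.eval t q

/-- `q(t) ≠ 0`. -/
def NonzeroAt {r : ℕ} (q : MvPolynomial (Fin r) ℚ) (t : Fin r → ℚ) : Prop :=
  MvPolynomial.eval t q ≠ 0

end Alg

open Pool.Agent.H914 Pool.Agent.W537 VarClass Obj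

variable {k : Type u} [Field k] {𝒱 : VarClass k} {ops : CycleOps 𝒱}

/-- Hard Lefschetz in degree `i` for the divisor `D` on `X`: the map
`ξ ^ (n - i) : H^i(X) → H^(2n - i)(X)` is bijective, where `n = dim X` and `ξ` is the class
of `D`. -/
def HardLefschetzIn (W : WeilCohomology.{u, v} ops) (X : 𝒱.Obj) (D : X.Cycles) (i : ℕ) : Prop :=
  BijectiveOn (W.gr X) i (2 * X.dim - i) (lefPow W X D (X.dim - i))

/-- The divisor `D_t = ∑ t j D j`. -/
noncomputable def divAt {X : 𝒱.Obj} {r : ℕ} (D : Fin r → X.Cycles) (t : Fin r → ℚ) : X.Cycles :=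
  comb t D

/-- The value at `t` of the cycle `∑ (p j / q) z j` on `X × X` with coefficients in the field
`ℚ(t 1, ..., t r)`. -/
noncomputable def cycAt {X : 𝒱.Obj} {N r : ℕ} (z : Fin N → (X.prod X).Cycles)
    (p : Fin N → MvPolynomial (Fin r) ℚ) (q : MvPolynomial (Fin r) ℚ) (t : Fin r → ℚ) :
    (X.prod X).Cycles :=
  comb (fun j => ratAt (p j) q t) z

/-- For all `t` in `ℚ ^ r` the map `D_t ^ (n - i) : H^i(X) → H^(2n - i)(X)` is bijective if and only
if `q(t) ≠ 0`, and in this case the value at `t` of the cycle `∑ (p j / q) z j` induces its inverse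
and acts as zero on the cohomology in the other degrees. -/
def InvertsFamily (W : WeilCohomology.{u, v} ops) (X : 𝒱.Obj) {N r : ℕ} (D : Fin r → X.Cycles)
    (i : ℕ) (z : Fin N → (X.prod X).Cycles) (p : Fin N → MvPolynomial (Fin r) ℚ)
    (q : MvPolynomial (Fin r) ℚ) : Prop :=
  ∀ t : Fin r → ℚ, (NonzeroAt q t ↔ HardLefschetzIn W X (divAt D t) i) ∧
    (NonzeroAt q t → InducesInverse W X (divAt D t) i (cycAt z p q t))

end Pool.Agent.J4.H18.U
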