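import Pool.Agent.N190.Sd.Rat
import Pool.Agent.H914R2.Graded

/-!
# The algorithm of Faddeev and LeVerrier for operators supported on a graded piece
-/

set_option autoImplicit false
set_option linter.unusedSectionVars false

open Polynomial Module

namespace Pool.Agent.J4.H18.U

section Gen

variable {K : Type*} [Field K] {E : Type*} [Ring E] [Module K E]

/-- The sequences of Faddeev and LeVerrier: `(A 0, c 0) = (P, 1)` and
`c (j + 1) = - tr (u A j) / (j + 1)`, `A (j + 1) = u A j + c (j + 1) P`. -/
noncomputable def fl (tr : E →ₗ[K] K) (P u : E) : ℕ → E × K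
  | 0 => (P, 1)
  | j + 1 =>
    (u * (fl tr P u j).1 + (- tr (u * (fl tr P u j).1) / ((j : K) + 1)) • P,
      - tr (u * (fl tr P u j).1) / ((j : K) + 1))

variable (tr : E →ₗ[K] K) (P u : E)

lemma fl_zero : fl tr P u 0 = (P, 1) := rfl

lemma fl_snd (j : ℕ) : (fl tr P u (j + 1)).2 = - tr (u * (fl tr P u j).1) / ((j : K) + 1) := rfl

lemma fl_fst (j : ℕ) : (fl tr P u (j + 1)).1 =
    u * (fl tr P u j).1 + (fl tr P u (j + 1)).2 • P := rfl

end Gen

section Mat

open Matrix Pool.Agent.N190.Sd

variable {ι K : Type*} [Fintype ι] [DecidableEq ι] [Field K]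

lemma coeff_card (A : Matrix ι ι K) : A.charpoly.coeff (Fintype.card ι) = 1 := by
  have h2 := A.charpoly_monic.coeff_natDegree
  rwa [charpoly_natDegree_eq_dim] at h2

lemma adjc_top (A : Matrix ι ι K) {k : ℕ} (hk : k + 1 = Fintype.card ι) : adjc A k = 1 := by
  rw [adjc_rec, adjc_eq_zero A (k + 1) (by omega), hk, coeff_card, mul_zero, zero_add, one_smul]

variable [CharZero K]

lemma fl_mat (A : Matrix ι ι K) (j : ℕ) : (j < Fintype.card ι →
      (fl (traceLinearMap ι K K) 1 A j).1 = adjc A (Fintype.card ι - 1 - j)) ∧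
    (j ≤ Fintype.card ι →
      (fl (traceLinearMap ι K K) 1 A j).2 = A.charpoly.coeff (Fintype.card ι - j)) := by
  set d := Fintype.card ι with hd
  induction j with
  | zero =>
    refine ⟨fun h => ?_, fun _ => ?_⟩
    · rw [fl_zero, adjc_top A (by omega)]
    · rw [fl_zero, Nat.sub_zero, hd, coeff_card]
  | succ j ih =>
    have key : j + 1 ≤ d → (fl (traceLinearMap ι K K) 1 A (j + 1)).2 =
        A.charpoly.coeff (d - (j + 1)) := by
      intro h
      rw [fl_snd, ih.1 (by omega), traceLinearMap_apply]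
      have h1 := newton A (d - (j + 1))
      rw [show d - 1 - j = d - (j + 1) by omega, ← h1, ← hd]
      have h2 : ((d - (j + 1) : ℕ) : K) - d = -((j : K) + 1) := by
        rw [Nat.cast_sub h]; push_cast; ring
      have h3 : (j : K) + 1 ≠ 0 := by exact_mod_cast Nat.succ_ne_zero j
      rw [h2, neg_mul, neg_neg, mul_div_assoc, mul_comm, div_mul_cancel₀ _ h3]
    refine ⟨fun h => ?_, key⟩
    rw [fl_fst, key (by omega), ih.1 (by omega), adjc_rec A (d - 1 - (j + 1)),
      show d - 1 - (j + 1) + 1 = d - (j + 1) by omega, show d - 1 - j = d - (j + 1) by omega]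

/-- The last step of the algorithm. -/
lemma fl_mat_last (A : Matrix ι ι K) : (fl (traceLinearMap ι K K) 1 A (Fintype.card ι)).1 = 0 ∧
    (fl (traceLinearMap ι K K) 1 A (Fintype.card ι)).2 =
      (-1) ^ Fintype.card ι * A.det := by
  set d := Fintype.card ι with hd
  have h2 := (fl_mat A d).2 le_rfl
  rw [← hd, Nat.sub_self] at h2
  have h3 : (fl (traceLinearMap ι K K) 1 A d).2 = (-1) ^ d * A.det := by
    rw [h2, det_eq_sign_charpoly_coeff, ← hd, ← mul_assoc, ← pow_add, ← two_mul, pow_mul]
    simp
  refine ⟨?_, h3⟩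
  rcases Nat.eq_zero_or_pos d with h0 | h0
  · have : IsEmpty ι := Fintype.card_eq_zero_iff.1 (hd.symm.trans h0)
    exact Subsingleton.elim _ _
  · obtain ⟨j, hj⟩ : ∃ j, d = j + 1 := ⟨d - 1, by omega⟩
    rw [hj, fl_fst, ← hj, h2, (fl_mat A j).1 (by omega), ← hd,
      show d - 1 - j = 0 by omega]
    exact (adjc_zero_rec A).symm

end Mat

section Lin

variable {K : Type*} [Field K] [CharZero K] {V : Type*} [AddCommGroup V] [Module K V]
  [Module.Finite K V]

/-- The algorithm for an endomorphism of a vector space. -/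
lemma fl_end_last (u : End K V) :
    (fl (LinearMap.trace K V) 1 u (finrank K V)).1 = 0 ∧
      (fl (LinearMap.trace K V) 1 u (finrank K V)).2 = (-1) ^ finrank K V * LinearMap.det u := by
  classical
  set b := Module.finBasis K V with hb
  have key : ∀ j, (fl (Matrix.traceLinearMap (Fin (finrank K V)) K K) 1
      (LinearMap.toMatrix b b u) j) = (LinearMap.toMatrix b b (fl (LinearMap.trace K V) 1 u j).1,
        (fl (LinearMap.trace K V) 1 u j).2) := by
    intro j
    induction j with
    | zero => rw [fl_zero, fl_zero, LinearMap.toMatrix_one]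
    | succ j ih =>
      have h1 : (fl (Matrix.traceLinearMap (Fin (finrank K V)) K K) 1
          (LinearMap.toMatrix b b u) (j + 1)).2 = (fl (LinearMap.trace K V) 1 u (j + 1)).2 := by
        rw [fl_snd, fl_snd, ih, Matrix.traceLinearMap_apply, ← LinearMap.toMatrix_mul,
          ← LinearMap.trace_eq_matrix_trace]
      refine Prod.ext ?_ h1
      rw [fl_fst, h1, ih, ← LinearMap.toMatrix_mul, fl_fst, map_add, map_smul,
        LinearMap.toMatrix_one]
  have h1 := fl_mat_last (LinearMap.toMatrix b b u)
  rw [Fintype.card_fin, key, LinearMap.det_toMatrix] at h1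
  refine ⟨?_, h1.2⟩
  have h2 := h1.1
  exact (LinearMap.toMatrix b b).injective (h2.trans (map_zero _).symm)

open Pool.Agent.H914

variable {gr : ℕ → Submodule K V}

/-- **The algorithm for an operator supported on a graded piece.** -/
theorem fl_graded (h : DirectSum.IsInternal gr) {i : ℕ} {u : End K V}
    (hPu : proj h i * u = u) :
    (fl (LinearMap.trace K V) (proj h i) u (finrank K (gr i))).1 = 0 ∧
      ((fl (LinearMap.trace K V) (proj h i) u (finrank K (gr i))).2 ≠ 0 ↔
        ∀ a ∈ gr i, u a = 0 → a = 0) := by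
  set P := proj h i with hP
  have hPP : P * P = P := proj_mul_proj h i
  have hPm : ∀ x, P x ∈ gr i := proj_mem h i
  have hmem : ∀ Z : End K V, P * Z = Z → ∀ x, Z x ∈ gr i := by
    intro Z hZ x
    rw [← hZ]
    exact hPm _
  have hum : ∀ x ∈ gr i, u x ∈ gr i := fun x _ => hmem u hPu x
  set ν : End K (gr i) := u.restrict hum with hν
  -- comparison of the two algorithms
  have key : ∀ j, P * (fl (LinearMap.trace K V) P u j).1 = (fl (LinearMap.trace K V) P u j).1 ∧
      (fl (LinearMap.trace K V) P u j).1 * P = (fl (LinearMap.trace K V) P u j).1 ∧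
      (∀ x : gr i, (fl (LinearMap.trace K V) P u j).1 x =
        ((fl (LinearMap.trace K (gr i)) 1 ν j).1 x : gr i)) ∧
      (fl (LinearMap.trace K V) P u j).2 = (fl (LinearMap.trace K (gr i)) 1 ν j).2 := by
    intro j
    induction j with
    | zero =>
      refine ⟨hPP, hPP, fun x => ?_, rfl⟩
      rw [fl_zero, fl_zero]
      exact proj_same h x.2
    | succ j ih =>
      obtain ⟨i1, i2, i3, i4⟩ := ih
      set A := (fl (LinearMap.trace K V) P u j).1 with hA
      set B := (fl (LinearMap.trace K (gr i)) 1 ν j).1 with hB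
      have e1 : LinearMap.trace K V (u * A) = LinearMap.trace K (gr i) (ν * B) := by
        have h1 : ∀ x, (u * A) x ∈ gr i := hmem _ (by rw [← mul_assoc, hPu])
        rw [← LinearMap.trace_restrict_eq_of_forall_mem (gr i) (u * A) h1]
        congr 1
        apply LinearMap.ext
        intro x
        apply Subtype.ext
        change u (A x) = u ((B x : gr i) : V)
        rw [i3]
      have e2 : (fl (LinearMap.trace K V) P u (j + 1)).2 =
          (fl (LinearMap.trace K (gr i)) 1 ν (j + 1)).2 := by
        rw [fl_snd, fl_snd, ← hA, ← hB, e1]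
      refine ⟨?_, ?_, fun x => ?_, e2⟩
      · rw [fl_fst, mul_add, ← mul_assoc, hPu, mul_smul_comm, hPP]
      · rw [fl_fst, add_mul, mul_assoc, i2, smul_mul_assoc, hPP]
      · rw [fl_fst, fl_fst, e2, ← hA, ← hB, LinearMap.add_apply, LinearMap.add_apply,
          LinearMap.smul_apply, LinearMap.smul_apply, Module.End.mul_apply, i3,
          proj_same h x.2]
        rfl
  obtain ⟨h1, h2⟩ := fl_end_last ν
  obtain ⟨k1, k2, k3, k4⟩ := key (finrank K (gr i))
  refine ⟨?_, ?_⟩
  · rw [← k2]
    apply LinearMap.ext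
    intro x
    rw [Module.End.mul_apply, LinearMap.zero_apply]
    have := k3 ⟨P x, hPm x⟩
    rw [h1] at this
    exact this
  · rw [k4, h2]
    have h3 : (-1 : K) ^ finrank K (gr i) ≠ 0 := pow_ne_zero _ (by norm_num)
    rw [mul_ne_zero_iff, and_iff_right h3, ← isUnit_iff_ne_zero, ← LinearMap.isUnit_iff_isUnit_det,
      LinearMap.isUnit_iff_ker_eq_bot, LinearMap.ker_eq_bot']
    constructor
    · intro h4 a ha h0
      exact congrArg Subtype.val (h4 ⟨a, ha⟩ (Subtype.ext h0))
    · intro h4 a h0
      exact Subtype.ext (h4 a a.2 (congrArg Subtype.val h0))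

end Lin

end Pool.Agent.J4.H18.U
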