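import Pool.Agent.J4.H18.B.Basic
import Pool.Agent.J4.H18.U.FL

/-!
# Families of operators which depend polynomially on parameters
-/

set_option autoImplicit false

open CategoryTheory AlgebraicGeometry Finset

universe u v

namespace Pool.Agent.J4.H18.U

open Pool.Agent.H914 Pool.Agent.H447 Pool.Agent.W534 Pool.Agent.W537 Pool.Agent.N190.Lin
  Pool.Agent.W550.B VarClass Obj WeilCohomology

variable {k : Type u} [Field k] {𝒱 : VarClass k} {ops : CycleOps 𝒱}

/-- A family of operators on the cohomology of `X`, one for each theory `W` and each point `t` of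
`ℚ ^ r`, which is realised by cycles and depends polynomially on `t`, homogeneous of
degree `e`. -/
def PR (ops : CycleOps 𝒱) (X : 𝒱.Obj) (r : ℕ) (d : ℤ) (e : ℕ)
    (Z : ∀ W : WeilCohomology.{u, v} ops, (Fin r → ℚ) → Module.End W.K (W.H X)) : Prop :=
  ∃ (ι : Type) (_ : Fintype ι) (B : ι → ∀ W : WeilCohomology.{u, v} ops, Module.End W.K (W.H X))
    (p : ι → MvPolynomial (Fin r) ℚ), (∀ j, Realized ops X d (B j)) ∧
    (∀ j, (p j).IsHomogeneous e) ∧
    ∀ (W : WeilCohomology.{u, v} ops) (t : Fin r → ℚ),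
      Z W t = ∑ j, ((MvPolynomial.eval t (p j) : ℚ) : W.K) • B j W

variable {X : 𝒱.Obj} {r : ℕ} {d d' : ℤ} {e e' : ℕ}
  {Z Z' : ∀ W : WeilCohomology.{u, v} ops, (Fin r → ℚ) → Module.End W.K (W.H X)}

namespace PR

lemma congr (h : PR ops X r d e Z) (h' : ∀ W t, Z' W t = Z W t) : PR ops X r d e Z' := by
  have : Z' = Z := funext fun W => funext fun t => h' W t
  rwa [this]

lemma cast (h : PR ops X r d e Z) (hd : d = d') (he : e = e') : PR ops X r d' e' Z := by
  subst hd; subst he; exact h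

lemma const {B : ∀ W : WeilCohomology.{u, v} ops, Module.End W.K (W.H X)}
    (hB : Realized ops X d B) : PR ops X r d 0 (fun W _ => B W) := by
  refine ⟨Unit, inferInstance, fun _ => B, fun _ => 1, fun _ => hB,
    fun _ => MvPolynomial.isHomogeneous_one _ _, fun W t => ?_⟩
  simp

lemma add (h : PR ops X r d e Z) (h' : PR ops X r d e Z') :
    PR ops X r d e (fun W t => Z W t + Z' W t) := by
  obtain ⟨ι, hι, B, p, hB, hp, hZ⟩ := h
  obtain ⟨ι', hι', B', p', hB', hp', hZ'⟩ := h'
  refine ⟨ι ⊕ ι', inferInstance, Sum.elim B B', Sum.elim p p', ?_, ?_, fun W t => ?_⟩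
  · rintro (j | j)
    · exact hB j
    · exact hB' j
  · rintro (j | j)
    · exact hp j
    · exact hp' j
  · beta_reduce
    rw [hZ, hZ', Fintype.sum_sum_type]
    rfl

lemma mul (h : PR ops X r d e Z) (h' : PR ops X r d' e' Z') :
    PR ops X r (d + d') (e + e') (fun W t => Z W t * Z' W t) := by
  obtain ⟨ι, hι, B, p, hB, hp, hZ⟩ := h
  obtain ⟨ι', hι', B', p', hB', hp', hZ'⟩ := h'
  refine ⟨ι × ι', inferInstance, fun j W => B j.1 W * B' j.2 W, fun j => p j.1 * p' j.2,
    fun j => (hB j.1).mul (hB' j.2), fun j => (hp j.1).mul (hp' j.2), fun W t => ?_⟩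
  beta_reduce
  rw [hZ, hZ', Finset.sum_mul_sum, Fintype.sum_prod_type]
  refine Finset.sum_congr rfl fun j _ => Finset.sum_congr rfl fun j' _ => ?_
  rw [smul_mul_assoc, mul_smul_comm, smul_smul, map_mul, Rat.cast_mul]

lemma psmul {q : MvPolynomial (Fin r) ℚ} (hq : q.IsHomogeneous e') (h : PR ops X r d e Z) :
    PR ops X r d (e' + e) (fun W t => ((MvPolynomial.eval t q : ℚ) : W.K) • Z W t) := by
  obtain ⟨ι, hι, B, p, hB, hp, hZ⟩ := h
  refine ⟨ι, hι, B, fun j => q * p j, hB, fun j => hq.mul (hp j), fun W t => ?_⟩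
  beta_reduce
  rw [hZ, Finset.smul_sum]
  refine Finset.sum_congr rfl fun j _ => ?_
  rw [smul_smul, map_mul, Rat.cast_mul]

lemma pow (h : PR ops X r d e Z) (m : ℕ) :
    PR ops X r (m * d) (m * e) (fun W t => Z W t ^ m) := by
  induction m with
  | zero =>
    refine ((const (r := r) Realized.one).cast ?_ ?_).congr fun W t => ?_
    · simp
    · simp
    · rw [pow_zero]
  | succ m ih =>
    refine ((ih.mul h).cast ?_ ?_).congr fun W t => ?_
    · push_cast; ring
    · ring
    · rw [pow_succ]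

/-- A linear family. -/
lemma linear {L : Fin r → ∀ W : WeilCohomology.{u, v} ops, Module.End W.K (W.H X)}
    (hL : ∀ j, Realized ops X d (L j)) :
    PR ops X r d 1 (fun W t => ∑ j, ((t j : ℚ) : W.K) • L j W) := by
  refine ⟨Fin r, inferInstance, L, fun j => MvPolynomial.X j, hL,
    fun j => MvPolynomial.isHomogeneous_X _ _, fun W t => ?_⟩
  simp

/-- The super traces of a polynomial family are given by a polynomial, the same for all
theories. -/
lemma str (h : PR ops X r 0 e Z) : ∃ q : MvPolynomial (Fin r) ℚ, q.IsHomogeneous e ∧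
    ∀ (W : WeilCohomology.{u, v} ops) (t : Fin r → ℚ),
      LinearMap.trace W.K (W.H X) (par (W.isInternal X) * Z W t) =
        ((MvPolynomial.eval t q : ℚ) : W.K) := by
  obtain ⟨ι, hι, B, p, hB, hp, hZ⟩ := h
  choose τ hτ using fun j => str_indep (hB j)
  refine ⟨∑ j, p j * MvPolynomial.C (τ j), ?_, fun W t => ?_⟩
  · refine MvPolynomial.IsHomogeneous.sum _ _ _ fun j _ => ?_
    have := (hp j).mul (MvPolynomial.isHomogeneous_C (Fin r) (τ j))
    rwa [add_zero] at this
  · rw [hZ, Finset.mul_sum, map_sum, map_sum, Rat.cast_sum]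
    refine Finset.sum_congr rfl fun j _ => ?_
    rw [mul_smul_comm, map_smul, hτ, map_mul, MvPolynomial.eval_C, Rat.cast_mul, smul_eq_mul]

end PR

end Pool.Agent.J4.H18.U
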