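import Pool.Agent.J4.H18.U.Main

/-!
# The universal inverse for all divisors
-/

set_option autoImplicit false

open CategoryTheory AlgebraicGeometry Finset

universe u v

namespace Pool.Agent.J4.H18.U

open Pool.Agent.H914 Pool.Agent.H447 Pool.Agent.W534 Pool.Agent.W537 Pool.Agent.N190.Lin
  Pool.Agent.W550.B VarClass Obj WeilCohomology

variable {k : Type u} [Field k] {𝒱 : VarClass k} {ops : CycleOps 𝒱} {X : 𝒱.Obj} {r : ℕ}

lemma isCyc_sum {X : SmVar k} {p : ℕ} {ι : Type*} (s : Finset ι) {z : ι → X.Cycles}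
    (h : ∀ j ∈ s, X.IsCyc p (z j)) : X.IsCyc p (∑ j ∈ s, z j) := by
  classical
  induction s using Finset.induction_on with
  | empty => rw [Finset.sum_empty]; exact SmVar.IsCyc.zero _ _
  | insert a s ha ih =>
    rw [Finset.sum_insert ha]
    exact (h a (by simp)).add (ih fun j hj => h j (by simp [hj]))

/-- **One universal family of cycles for all theories and all divisors.** -/
theorem universal_div {W : WeilCohomology.{u, v} ops} {D₀ : X.Cycles} (hD₀ : X.IsCyc 1 D₀) {i : ℕ}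
    (hi : i ≤ X.dim) (hB : ∀ l ≤ i, ∃ z, InvertsLefschetz W X D₀ l z) {D : Fin r → X.Cycles}
    (hD : ∀ j, X.IsCyc 1 (D j)) :
    ∃ (N : ℕ) (z : Fin N → (X.prod X).Cycles) (p : Fin N → MvPolynomial (Fin r) ℚ)
      (q : MvPolynomial (Fin r) ℚ), (∀ j, (X.prod X).IsCyc i (z j)) ∧
      (∀ j, (p j).IsHomogeneous ((X.dim - i) * (W.betti X i - 1))) ∧
      q.IsHomogeneous ((X.dim - i) * W.betti X i) ∧
      ∀ W' : WeilCohomology.{u, v} ops, (∀ l ≤ i, W'.betti X l = W.betti X l) →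
        InvertsFamily W' X D i z p q := by
  have hDt : ∀ t : Fin r → ℚ, X.IsCyc 1 (∑ j, t j • D j) := fun t =>
    isCyc_sum _ fun j _ => (hD j).smul _
  have hlin : ∀ (W : WeilCohomology.{u, v} ops) (t : Fin r → ℚ),
      LL (∑ j, t j • D j) W = ∑ j, ((t j : ℚ) : W.K) • LL (D j) W := by
    intro W t
    apply LinearMap.ext
    intro a
    rw [LinearMap.mulLeft_apply, map_sum, Finset.sum_mul, LinearMap.sum_apply]
    refine Finset.sum_congr rfl fun j _ => ?_
    rw [cl_smul, LinearMap.smul_apply, LinearMap.mulLeft_apply, smul_mul_assoc]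
  have hΦ : PR ops X r ((X.dim - i : ℕ) : ℤ) (X.dim - i)
      (fun W : WeilCohomology.{u, v} ops => fun t => LL (∑ j, t j • D j) W ^ (X.dim - i)) := by
    have h1 : PR ops X r (1 : ℕ) 1 (fun (W : WeilCohomology.{u, v} ops) (t : Fin r → ℚ) =>
        ∑ j, ((t j : ℚ) : W.K) • LL (D j) W) :=
      PR.linear fun j => Realized.mulLeft (hD j)
    refine ((h1.pow (X.dim - i)).cast (by ring) (by ring)).congr fun W t => ?_
    rw [hlin]
  obtain ⟨N, z, p, q, hz, hp, hq, h⟩ := universal hD₀ hi hB hΦ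
  refine ⟨N, z, p, q, hz, hp, hq, fun W' hW' t => ?_⟩
  change (MvPolynomial.eval t q ≠ 0 ↔ HardLefschetzIn W' X (∑ j, t j • D j) i) ∧
          (MvPolynomial.eval t q ≠ 0 → InducesInverse W' X (∑ j, t j • D j) i
            (∑ j, (MvPolynomial.eval t (p j) / MvPolynomial.eval t q) • z j))
  obtain ⟨h1, h2⟩ := h W' hW' t
  have h3 : MvPolynomial.eval t q ≠ 0 → InducesInverse W' X (∑ j, t j • D j) i
      (∑ j, (MvPolynomial.eval t (p j) / MvPolynomial.eval t q) • z j) := by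
    intro hqt
    obtain ⟨h4, h5⟩ := h2 hqt
    refine ⟨(inverts_iff (hDt t) W' hi).2 ⟨isCyc_sum _ fun j _ => (hz j).smul _, fun a ha => ?_⟩,
      h5⟩
    rw [show X.dim - (X.dim - i) = i by omega] at ha
    exact h4 a ha
  refine ⟨⟨fun hqt => ?_, fun hL => ?_⟩, h3⟩
  · obtain ⟨⟨-, h4, h5⟩, -⟩ := h3 hqt
    refine ⟨fun a ha h0 => ?_, fun b hb => ⟨_, ?_, h5 b hb⟩⟩
    · rw [← h4 a ha, h0, map_zero]
    · have h6 := (QOp.gen (W := W') (d := -((X.dim - i : ℕ) : ℤ)) (p := i) (by omega)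
        (isCyc_sum (X := (X.prod X).V) Finset.univ (fun j _ => (hz j).smul
          (MvPolynomial.eval t (p j) / MvPolynomial.eval t q)))).kop
      have h7 := KOp.isHom h6 ((2 * X.dim - i : ℕ) : ℤ) b (by rw [grZ_natCast]; exact hb)
      rwa [show ((2 * X.dim - i : ℕ) : ℤ) + 2 * -((X.dim - i : ℕ) : ℤ) = (i : ℤ) by omega,
        grZ_natCast] at h7
  · refine h1.2 fun a ha h0 => hL.1 a ha ?_
    change (LL (∑ j, t j • D j) W' ^ (X.dim - i)) a = 0 at h0
    rwa [LinearMap.pow_mulLeft] at h0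

end Pool.Agent.J4.H18.U
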