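import Pool.Agent.J4.H18.U.Fam
import Pool.Agent.J4.H18.U.Defs

/-!
# The universal inverse
-/

set_option autoImplicit false

open CategoryTheory AlgebraicGeometry Finset

universe u v

namespace Pool.Agent.J4.H18.U

open Pool.Agent.H914 Pool.Agent.H447 Pool.Agent.W534 Pool.Agent.W537 Pool.Agent.N190.Lin
  Pool.Agent.W550.B VarClass Obj WeilCohomology

variable {k : Type u} [Field k] {𝒱 : VarClass k} {ops : CycleOps 𝒱} {X : 𝒱.Obj} {r : ℕ}

/-- The theories `W'` with the same Betti numbers as `W` in the degrees at most `i`. -/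
def Same (W W' : WeilCohomology.{u, v} ops) (X : 𝒱.Obj) (i : ℕ) : Prop :=
  ∀ l ≤ i, W'.betti X l = W.betti X l

/-- **The universal inverse of a polynomial family of correspondences `H^i → H^(2n - i)`.** -/
theorem universal {W : WeilCohomology.{u, v} ops} {D₀ : X.Cycles} (hD₀ : X.IsCyc 1 D₀) {i : ℕ}
    (hi : i ≤ X.dim) (hB : BUpTo W X D₀ i) {g : ℕ}
    {Φ : ∀ W : WeilCohomology.{u, v} ops, (Fin r → ℚ) → Module.End W.K (W.H X)}
    (hΦ : PR ops X r ((X.dim - i : ℕ) : ℤ) g Φ) :
    ∃ (N : ℕ) (z : Fin N → (X.prod X).Cycles) (p : Fin N → MvPolynomial (Fin r) ℚ)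
      (q : MvPolynomial (Fin r) ℚ), (∀ j, (X.prod X).IsCyc i (z j)) ∧
      (∀ j, (p j).IsHomogeneous (g * (W.betti X i - 1))) ∧
      q.IsHomogeneous (g * W.betti X i) ∧
      ∀ W' : WeilCohomology.{u, v} ops, Same W W' X i → ∀ t : Fin r → ℚ,
        (MvPolynomial.eval t q ≠ 0 ↔ ∀ a ∈ W'.gr X i, Φ W' t a = 0 → a = 0) ∧
        (MvPolynomial.eval t q ≠ 0 →
          (∀ a ∈ W'.gr X i, cycOp W' X (∑ j, (MvPolynomial.eval t (p j) /
            MvPolynomial.eval t q) • z j) (Φ W' t a) = a) ∧
          SupportedIn (W'.gr X) (2 * X.dim - i) (cycOp W' X (∑ j, (MvPolynomial.eval t (p j) /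
            MvPolynomial.eval t q) • z j))) := by
  classical
  set n := X.dim with hn
  set c := n - i with hc
  -- the system of inverses
  obtain ⟨F, hF, hF'⟩ := exists_system hD₀ hi W hB
  have hFi : ∀ W' : WeilCohomology.{u, v} ops, Same W W' X i →
      IsInv (W'.gr X) X.dim (LL D₀ W') (X.dim - i) (F i W') := by
    intro W' hW'
    have key : ∀ l ≤ i, IsInv (W'.gr X) X.dim (LL D₀ W') (X.dim - l) (F l W') := by
      intro l
      induction l using Nat.strong_induction_on with
      | _ l ih =>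
        intro hl
        exact (hF' W' l hl (fun m hm => ih m hm (by omega))).2 (hW' l hl).le
    exact key i le_rfl
  have hFr := hF i le_rfl
  set T := F i with hT
  have hTs : ∀ W' : WeilCohomology.{u, v} ops, Same W W' X i → ∀ l, l ≠ 2 * n - i →
      ∀ a ∈ W'.gr X l, T W' a = 0 := by
    intro W' hW' l hl a ha
    exact (hFi W' hW').2 l (by omega) a ha
  have hTm : ∀ W' : WeilCohomology.{u, v} ops, ∀ a ∈ W'.gr X (2 * n - i), T W' a ∈ W'.gr X i := by
    intro W' a ha
    have h1 := hFr.isHom W' ((2 * n - i : ℕ) : ℤ) a (by rw [grZ_natCast]; exact ha)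
    rwa [show ((2 * n - i : ℕ) : ℤ) + 2 * -((X.dim - i : ℕ) : ℤ) = (i : ℤ) by omega,
      grZ_natCast] at h1
  have hTinj : ∀ W' : WeilCohomology.{u, v} ops, Same W W' X i → ∀ b ∈ W'.gr X (2 * n - i),
      T W' b = 0 → b = 0 := by
    intro W' hW' b hb h0
    have h1 := hFi W' hW'
    obtain ⟨a, ha, rfl⟩ := surj_of_left hD₀ W' (c := X.dim - i) (by omega) h1.1
      (by rwa [show X.dim + (X.dim - i) = 2 * n - i by omega])
    rw [h1.1 a ha] at h0
    rw [h0, map_zero]
  -- the projector
  set P : ∀ W : WeilCohomology.{u, v} ops, Module.End W.K (W.H X) :=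
    fun W => T W * LL D₀ W ^ c with hP
  have hPr : Realized ops X 0 P := by
    refine Realized.cast (hFr.mul ((Realized.mulLeft hD₀).pow c)) ?_
    push_cast
    ring
  have hPW : ∀ W' : WeilCohomology.{u, v} ops, Same W W' X i →
      P W' = proj (W'.isInternal X) i := by
    intro W' hW'
    have h1 := isInv_mul_pow hD₀ W' (by omega) (hFi W' hW')
    rwa [show X.dim - (X.dim - i) = i by omega] at h1
  -- the family of endomorphisms
  set M : ∀ W : WeilCohomology.{u, v} ops, (Fin r → ℚ) → Module.End W.K (W.H X) :=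
    fun W t => T W * Φ W t with hM
  have hMr : PR ops X r 0 g M := by
    refine ((PR.const (r := r) hFr).mul hΦ).cast ?_ (by ring)
    ring
  have hΦm : ∀ (W' : WeilCohomology.{u, v} ops) (t : Fin r → ℚ) (l : ℕ), ∀ a ∈ W'.gr X l,
      Φ W' t a ∈ W'.gr X (l + 2 * c) := by
    obtain ⟨ι, hι, B, p, hB', -, hZ⟩ := hΦ
    intro W' t l a ha
    rw [hZ, LinearMap.sum_apply]
    refine Submodule.sum_mem _ fun j _ => ?_
    rw [LinearMap.smul_apply]
    refine Submodule.smul_mem _ _ ?_
    have h1 := (hB' j).isHom W' (l : ℤ) a (by rw [grZ_natCast]; exact ha)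
    rwa [show (l : ℤ) + 2 * ((X.dim - i : ℕ) : ℤ) = ((l + 2 * c : ℕ) : ℤ) by push_cast; omega,
      grZ_natCast] at h1
  have hPM : ∀ W' : WeilCohomology.{u, v} ops, Same W W' X i → ∀ t,
      proj (W'.isInternal X) i * M W' t = M W' t := by
    intro W' hW' t
    apply gr_ext (W'.isInternal X)
    intro l a ha
    rw [Module.End.mul_apply]
    change proj _ i (T W' (Φ W' t a)) = T W' (Φ W' t a)
    have h1 := hΦm W' t l a ha
    by_cases hl : l + 2 * c = 2 * n - i
    · rw [hl] at h1
      rw [proj_same _ (hTm W' _ h1)]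
    · rw [hTs W' hW' _ hl _ h1, map_zero]
  -- the algorithm
  have key : ∀ j : ℕ, ∃ (A : ∀ W : WeilCohomology.{u, v} ops, (Fin r → ℚ) →
      Module.End W.K (W.H X)) (q : MvPolynomial (Fin r) ℚ), PR ops X r 0 (g * j) A ∧
      q.IsHomogeneous (g * j) ∧ ∀ W' : WeilCohomology.{u, v} ops, Same W W' X i → ∀ t,
        fl (LinearMap.trace W'.K (W'.H X)) (proj (W'.isInternal X) i) (M W' t) j =
          (A W' t, ((MvPolynomial.eval t q : ℚ) : W'.K)) := by
    intro j
    induction j with
    | zero =>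
      refine ⟨fun W _ => P W, 1, (PR.const hPr).cast rfl (by ring), ?_, fun W' hW' t => ?_⟩
      · rw [mul_zero]; exact MvPolynomial.isHomogeneous_one _ _
      · rw [fl_zero]
        beta_reduce
        rw [hPW W' hW']
        simp
    | succ j ih =>
      obtain ⟨A, q, hA, hq, hAq⟩ := ih
      have hMA : PR ops X r 0 (g * (j + 1)) (fun W t => M W t * A W t) :=
        (hMr.mul hA).cast (by ring) (by ring)
      obtain ⟨s, hs, hs'⟩ := hMA.str
      set q' : MvPolynomial (Fin r) ℚ := MvPolynomial.C (-(-1) ^ i / ((j : ℚ) + 1)) * s with hq'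
      have hq'h : q'.IsHomogeneous (g * (j + 1)) := by
        have := (MvPolynomial.isHomogeneous_C (Fin r) (-(-1) ^ i / ((j : ℚ) + 1))).mul hs
        rwa [zero_add] at this
      have htr : ∀ W' : WeilCohomology.{u, v} ops, Same W W' X i → ∀ t,
          - LinearMap.trace W'.K (W'.H X) (M W' t * A W' t) / ((j : W'.K) + 1) =
            ((MvPolynomial.eval t q' : ℚ) : W'.K) := by
        intro W' hW' t
        have h1 := hs' W' t
        beta_reduce at h1
        rw [str_supp W' (i := i) (by rw [← mul_assoc, hPM W' hW'])] at h1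
        have h2 : LinearMap.trace W'.K (W'.H X) (M W' t * A W' t) =
            (-1 : W'.K) ^ i * ((MvPolynomial.eval t s : ℚ) : W'.K) := by
          rw [← h1, ← mul_assoc, ← pow_add, ← two_mul, pow_mul]
          simp
        rw [h2, hq', map_mul, MvPolynomial.eval_C]
        push_cast
        ring
      refine ⟨fun W t => M W t * A W t + ((MvPolynomial.eval t q' : ℚ) : W.K) • P W, q', ?_,
        hq'h, fun W' hW' t => ?_⟩
      · refine hMA.add ?_
        exact (PR.psmul hq'h (PR.const hPr)).cast rfl (by ring)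
      · have h1 := hAq W' hW' t
        have h2 : (fl (LinearMap.trace W'.K (W'.H X)) (proj (W'.isInternal X) i)
            (M W' t) (j + 1)).2 = ((MvPolynomial.eval t q' : ℚ) : W'.K) := by
          rw [fl_snd, h1]
          exact htr W' hW' t
        refine Prod.ext ?_ h2
        rw [fl_fst, h2, h1]
        beta_reduce
        rw [hPW W' hW']
  -- injectivity
  have hinj : ∀ W' : WeilCohomology.{u, v} ops, Same W W' X i → ∀ t,
      (∀ a ∈ W'.gr X i, M W' t a = 0 → a = 0) ↔ ∀ a ∈ W'.gr X i, Φ W' t a = 0 → a = 0 := by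
    intro W' hW' t
    have h1 : ∀ a ∈ W'.gr X i, M W' t a = 0 ↔ Φ W' t a = 0 := by
      intro a ha
      have h2 := hΦm W' t i a ha
      rw [show i + 2 * c = 2 * n - i by omega] at h2
      constructor
      · exact fun h => hTinj W' hW' _ h2 h
      · intro h
        change T W' (Φ W' t a) = 0
        rw [h, map_zero]
    exact forall₂_congr fun a ha => by rw [h1 a ha]
  obtain ⟨A, q, -, hq, hAq⟩ := key (W.betti X i)
  have hlast : ∀ W' : WeilCohomology.{u, v} ops, Same W W' X i → ∀ t,
      A W' t = 0 ∧ (MvPolynomial.eval t q ≠ 0 ↔ ∀ a ∈ W'.gr X i, Φ W' t a = 0 → a = 0) := by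
    intro W' hW' t
    have h1 := fl_graded (W'.isInternal X) (hPM W' hW' t)
    have h2 : Module.finrank W'.K (W'.gr X i) = W.betti X i := hW' i le_rfl
    rw [h2, hAq W' hW' t, hinj W' hW' t] at h1
    refine ⟨h1.1, ?_⟩
    rw [← h1.2, ne_eq, ne_eq, Rat.cast_eq_zero]
  rcases Nat.eq_zero_or_pos (W.betti X i) with hb | hb
  · -- the trivial case
    refine ⟨0, Fin.elim0, Fin.elim0, q, fun j => j.elim0, fun j => j.elim0, hq,
      fun W' hW' t => ⟨(hlast W' hW' t).2, fun _ => ?_⟩⟩
    have h0 : ∀ a ∈ W'.gr X i, a = 0 := by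
      have h1 : Module.finrank W'.K (W'.gr X i) = 0 := (hW' i le_rfl).trans hb
      have h2 : W'.gr X i = ⊥ := Submodule.finrank_eq_zero.1 h1
      intro a ha
      rw [h2] at ha
      exact (Submodule.mem_bot _).1 ha
    constructor
    · intro a ha
      rw [h0 a ha, map_zero, map_zero]
    · intro l _ a _
      simp [cycOp, corr_zero]
  · obtain ⟨b, hb'⟩ : ∃ b, W.betti X i = b + 1 := ⟨W.betti X i - 1, by omega⟩
    obtain ⟨A', q', hA', hq', hAq'⟩ := key b
    obtain ⟨ι, hι, B, p, hBr, hp, hZ⟩ := hA'.mul (PR.const (r := r) hFr)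
    have hcyc : ∀ j, ∃ z, (X.prod X).IsCyc i z ∧
        ∀ W : WeilCohomology.{u, v} ops, B j W = W.corr (W.cl _ z) := fun j =>
      cyc_of_realized hi ((hBr j).cast (by ring))
    choose z hz hzB using hcyc
    set eq := Fintype.equivFin ι with heq
    refine ⟨Fintype.card ι, fun j => z (eq.symm j), fun j => -p (eq.symm j), q,
      fun j => hz _, fun j => ?_, hq, fun W' hW' t => ⟨(hlast W' hW' t).2, fun hqt => ?_⟩⟩
    · have := (hp (eq.symm j)).neg
      rwa [hb', Nat.add_sub_cancel]
    have hcl : cycOp W' X (∑ j, (MvPolynomial.eval t (-p (eq.symm j)) /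
        MvPolynomial.eval t q) • z (eq.symm j)) =
        -((MvPolynomial.eval t q : ℚ) : W'.K)⁻¹ • (A' W' t * T W') := by
      have h1 : A' W' t * T W' = ∑ j, ((MvPolynomial.eval t (p j) : ℚ) : W'.K) • B j W' := hZ W' t
      rw [h1, Finset.smul_sum, ← Equiv.sum_comp eq.symm, cycOp, map_sum]
      have h2 : ∀ (s : Finset (Fin (Fintype.card ι))) (f : Fin (Fintype.card ι) →
          W'.H (X.prod X)), W'.corr (∑ j ∈ s, f j) = ∑ j ∈ s, W'.corr (f j) := by
        intro s f
        induction s using Finset.induction_on with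
        | empty => rw [Finset.sum_empty, Finset.sum_empty, corr_zero]
        | insert a s ha ih => rw [Finset.sum_insert ha, Finset.sum_insert ha, corr_add, ih]
      rw [h2]
      refine Finset.sum_congr rfl fun j _ => ?_
      rw [cl_smul, corr_smul, ← hzB, smul_smul]
      congr 1
      push_cast
      rw [map_neg]
      push_cast
      ring
    have hqK : ((MvPolynomial.eval t q : ℚ) : W'.K) ≠ 0 := by
      rw [ne_eq, Rat.cast_eq_zero]; exact hqt
    -- the last step of the algorithm
    have hfl : M W' t * A' W' t + ((MvPolynomial.eval t q : ℚ) : W'.K) •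
        proj (W'.isInternal X) i = 0 := by
      have h1 := fl_fst (LinearMap.trace W'.K (W'.H X)) (proj (W'.isInternal X) i) (M W' t) b
      have h2 := hAq W' hW' t
      rw [hb'] at h2
      rw [h2, hAq' W' hW' t, (hlast W' hW' t).1] at h1
      exact h1.symm
    have hMinj := (hinj W' hW' t).2 ((hlast W' hW' t).2.1 hqt)
    have hMm : ∀ a ∈ W'.gr X i, M W' t a ∈ W'.gr X i := by
      intro a _
      rw [← hPM W' hW' t]
      exact proj_mem _ _ _
    -- `A'` maps into `gr i`
    have hA'm : ∀ a ∈ W'.gr X i, A' W' t a ∈ W'.gr X i := by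
      have h3 := (PR.add hA' hA').choose_spec
      intro a ha
      obtain ⟨ι', hι', B', p', hB'', -, hZ'⟩ := hA'
      rw [hZ', LinearMap.sum_apply]
      refine Submodule.sum_mem _ fun j _ => Submodule.smul_mem _ _ ?_
      have h1 := (hB'' j).isHom W' (i : ℤ) a (by rw [grZ_natCast]; exact ha)
      rwa [mul_zero, add_zero, grZ_natCast] at h1
    rw [hcl]
    constructor
    · intro a ha
      change -((MvPolynomial.eval t q : ℚ) : W'.K)⁻¹ • A' W' t (M W' t a) = a
      -- `M (M' M a - a) = 0`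
      rw [← sub_eq_zero]
      apply hMinj
      · refine Submodule.sub_mem _ (Submodule.smul_mem _ _ (hA'm _ (hMm a ha))) ha
      · have h1 := congrArg (fun f => f (M W' t a)) hfl
        simp only [LinearMap.add_apply, LinearMap.smul_apply, Module.End.mul_apply,
          LinearMap.zero_apply] at h1
        rw [proj_same _ (hMm a ha)] at h1
        rw [map_sub, map_smul, eq_neg_of_add_eq_zero_left h1, smul_neg, neg_smul, neg_neg,
          smul_smul, inv_mul_cancel₀ hqK, one_smul, sub_self]
    · intro l hl a ha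
      change -((MvPolynomial.eval t q : ℚ) : W'.K)⁻¹ • A' W' t (T W' a) = 0
      rw [hTs W' hW' l hl a ha, map_zero, smul_zero]

end Pool.Agent.J4.H18.U
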